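import Pool.Agent.Q266.HLC.Asm
import Pool.Agent.Q266.HLC.Menger
import Pool.Agent.Q266.HLC.Strands
import Pool.Agent.Q124.HLC.Glob

/-!
# MP_a1dcbe_gt: hereditarily locally connected separable metric spaces are at most one-dimensional

In the literal reading of the problem file a space without nondegenerate connected subsets is
hereditarily locally connected, so the question is meant for connected (or for locally connected)
spaces. For these the answer is yes.
-/

set_option autoImplicit false

namespace Pool.Agent.Results.MP_a1dcbe_gt.DimensionAtMostOne

open Topology Pool.Agent.Q266.HLC

/-- Every connected subset of `X`, with the subspace topology, is locally connected. -/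
def HereditarilyLocallyConnected (X : Type) [TopologicalSpace X] : Prop :=
  ∀ s : Set X, IsConnected s → LocallyConnectedSpace s

/-- `X` has small inductive dimension at most zero: every point has arbitrarily small clopen
neighbourhoods. -/
def IndLeZero (X : Type) [TopologicalSpace X] : Prop :=
  ∀ x : X, ∀ V : Set X, IsOpen V → x ∈ V → ∃ W : Set X, IsClopen W ∧ x ∈ W ∧ W ⊆ V

/-- `X` has small inductive dimension at most one: every point has arbitrarily small open
neighbourhoods whose boundaries have small inductive dimension at most zero. -/
def IndLeOne (X : Type) [TopologicalSpace X] : Prop :=
  ∀ x : X, ∀ V : Set X, IsOpen V → x ∈ V →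
    ∃ U : Set X, IsOpen U ∧ x ∈ U ∧ U ⊆ V ∧ IndLeZero (frontier U)

theorem connected_case (X : Type) [MetricSpace X] [TopologicalSpace.SeparableSpace X]
    [ConnectedSpace X] (hX : HereditarilyLocallyConnected X) : IndLeOne X := by
  have h1 : HL X := hl_of hX
  have hlc : LocallyConnectedSpace X := by
    rw [locallyConnectedSpace_iff_connected_subsets]
    intro x N hN
    obtain ⟨T, hT1, hT2, hT3, hT4⟩ := h1 Set.univ isPreconnected_univ x (Set.mem_univ _) N hN
    rw [nhdsWithin_univ] at hT4
    exact ⟨T, hT4, hT2, fun a ha => (hT1 ha).2⟩
  exact assembly X (csep menger strands X h1)

/-- (1) Every connected separable metric space in which all connected subsets are locally connected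
has dimension at most one. (2) The same for every locally connected separable metric space in which
all connected subsets are locally connected. (3) If all connected subsets of a separable metric
space `X` are locally connected (without further hypotheses on `X`) then every connected subset of
`X` has dimension at most one. -/
theorem result :
    (∀ (X : Type) [MetricSpace X] [TopologicalSpace.SeparableSpace X] [ConnectedSpace X],
      HereditarilyLocallyConnected X → IndLeOne X) ∧
    (∀ (X : Type) [MetricSpace X] [TopologicalSpace.SeparableSpace X] [LocallyConnectedSpace X],
      HereditarilyLocallyConnected X → IndLeOne X) ∧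
    (∀ (X : Type) [MetricSpace X] [TopologicalSpace.SeparableSpace X],
      HereditarilyLocallyConnected X → ∀ S : Set X, IsConnected S → IndLeOne S) := by
  refine ⟨?_, ?_, ?_⟩
  · intro X _ _ _ hX
    exact connected_case X hX
  · exact Pool.Agent.Q124.HLC.global fun Y _ _ _ hY => connected_case Y hY
  · intro X _ _ hX S hS
    have hsc : SecondCountableTopology X := UniformSpace.secondCountable_of_separable X
    have hconn : ConnectedSpace S := isConnected_iff_connectedSpace.1 hS
    refine connected_case S ?_
    intro s hs
    have h1 : IsConnected ((Subtype.val : S → X) '' s) :=
      hs.image _ continuous_subtype_val.continuousOn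
    have h2 := hX _ h1
    exact (IsEmbedding.subtypeVal.homeomorphImage s).isOpenEmbedding.locallyConnectedSpace

end Pool.Agent.Results.MP_a1dcbe_gt.DimensionAtMostOne
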